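import Pool.Agent.W761.Gauss.Main

/-!
# Multiple averages of Gaussian `ℤ^d`-actions along good sequences

`IsGaussianAction μ T`: `T` is an action of `ℤ^d` by invertible bi-measurable maps preserving the
probability measure `μ`, and some linear space of centered Gaussian random variables is invariant
modulo null sets and generates the σ-algebra modulo null sets.

`IsFactor μ T ν R`: some measure preserving `π : X → Y` satisfies `π (T i x) = R i (π x)` almost
everywhere.

`PG b`: for every invertible measure preserving `τ` and bounded measurable `F` the averages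
`(1/(2N+1)) ∑_{|n| ≤ N} F (τ^(b n) ω)` converge almost everywhere.
-/

set_option autoImplicit false

open Filter Topology MeasureTheory
open scoped ENNReal

namespace Pool.Agent.Results.MP_4d8f14_an.GaussianSequences

open Pool.Agent.W761.Gauss

/-- Every sequence `b : ℤ → ℤ` which is good for the pointwise convergence of the averages of one
bounded function of one transformation is good for all multiple averages of Gaussian
`ℤ^d`-actions and their factors: if `T` is a Gaussian action of `ℤ^d`, `R` a factor of it, `a` an
integer `d × m` matrix and `f_1, …, f_m ∈ L^∞`, then the averages over `|n| ≤ N` of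
`∏_j f_j (R_1^(a_1j b(n)) ⋯ R_d^(a_dj b(n)) y)` converge for almost every `y`. -/
theorem result (d m : ℕ) {X Y : Type} [MeasurableSpace X] [MeasurableSpace Y] (μ : Measure X)
    [IsProbabilityMeasure μ] (ν : Measure Y) (T : Fin d → Equiv.Perm X)
    (R : Fin d → Equiv.Perm Y) (hT : IsGaussianAction μ T)
    (hRm : ∀ i, Measurable (R i).symm) (hR : ∀ i, MeasurePreserving (R i) ν ν)
    (hfac : IsFactor μ T ν R) (b : ℤ → ℤ) (hb : PG b) (a : Fin d → Fin m → ℤ)
    (f : Fin m → Y → ℂ) (hf : ∀ j, MemLp (f j) ∞ ν) :
    ∀ᵐ y ∂ν, ∃ L : ℂ, Tendsto (fun N : ℕ => ((2 * N + 1 : ℕ) : ℂ)⁻¹ *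
      ∑ n ∈ Finset.Icc (-(N : ℤ)) (N : ℤ), ∏ j,
        f j ((List.ofFn fun i : Fin d => R i ^ (a i j * b n)).prod y)) atTop (𝓝 L) :=
  factor_conv hT hRm hR hfac hb a hf

end Pool.Agent.Results.MP_4d8f14_an.GaussianSequences
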