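import Pool.Agent.W761.Gauss.Main2

/-!
# Pointwise convergence of multiple ergodic averages of Gaussian systems

`IsGaussianSystem μ S`: the maps `S j` are invertible, bi-measurable and preserve the probability
measure `μ`, and some linear space of centered Gaussian random variables is invariant modulo null
sets under the `S j` and their inverses and generates the σ-algebra modulo null sets.

`IsFactorSystem μ S ν R`: some measure preserving `π : X → Y` satisfies `π (S j x) = R j (π x)` for
almost every `x`.

No assumption is made on the spectral type, on ergodicity or on mixing.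
-/

set_option autoImplicit false

open Filter Topology MeasureTheory
open scoped ENNReal commutatorElement

namespace Pool.Agent.Results.MP_4d8f14_an.GaussianSystems

open Pool.Agent.W761.Gauss

/-- Let `S_1, …, S_m` be the maps of a Gaussian system such that every commutator `[S_j, S_k]`
commutes with `S_j` (and then also with `S_k`): for instance, the group generated by the `S_j` is
nilpotent of step at most two. Let `R_1, …, R_m` be measure preserving maps of a factor (for
example, the system itself). Then for all `f_1, …, f_m ∈ L^∞` the averages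
`(1/(2N+1)) ∑_{|n| ≤ N} f_1 (R_1^n y) ⋯ f_m (R_m^n y)` converge for almost every `y`. -/
theorem result (m : ℕ) {X Y : Type} [MeasurableSpace X] [MeasurableSpace Y] (μ : Measure X)
    [IsProbabilityMeasure μ] (ν : Measure Y) (S : Fin m → Equiv.Perm X)
    (R : Fin m → Equiv.Perm Y) (hS : IsGaussianSystem μ S)
    (hc : ∀ j k, Commute ⁅S j, S k⁆ (S j))
    (hRm : ∀ j, Measurable (R j).symm) (hR : ∀ j, MeasurePreserving (R j) ν ν)
    (hfac : IsFactorSystem μ S ν R) (f : Fin m → Y → ℂ) (hf : ∀ j, MemLp (f j) ∞ ν) :
    ∀ᵐ y ∂ν, ∃ L : ℂ, Tendsto (fun N : ℕ => ((2 * N + 1 : ℕ) : ℂ)⁻¹ *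
      ∑ n ∈ Finset.Icc (-(N : ℤ)) (N : ℤ), ∏ j, f j ((R j ^ n) y)) atTop (𝓝 L) :=
  factor_conv2 hS hc hRm hR hfac hf

end Pool.Agent.Results.MP_4d8f14_an.GaussianSystems
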